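import Pool.Agent.Q99.XF.Stm
import Pool.Agent.Q208.KN.LC
import Pool.Agent.Q280.KN.GAM
import Pool.Agent.Q162.HX.GX
import Pool.Agent.Q202.HX2.UA

set_option autoImplicit false

/-! JOB BX of the project XF: one bracket to all orders, with shifts. -/

namespace Pool.Agent.Q79.XF

open Finset Filter Topology MeasureTheory
open Pool.Agent.Q99.KN (LC bb Gm St S_LC S_GAM)
open Pool.Agent.Q99.HT
open Pool.Agent.Q99.HX
open Pool.Agent.Q99.XF

/-- the normalised quantum dilogarithm -/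
noncomputable def Gt (s : ℝ) (N : ℕ) (x : ℂ) : ℂ :=
  Gm N (x + s / N) * Complex.exp (-(N * LC x))

theorem mem_Sd {r c e : ℝ} {z : ℂ} (h : ‖z - c‖ ≤ e) (h1 : r + e < c) (h2 : c + e < 1 - r)
    (h3 : e < 1) : z ∈ Sd r := by
  have a1 := abs_le.1 ((Complex.abs_re_le_norm (z - c)).trans h)
  have a2 := (Complex.abs_im_le_norm (z - c)).trans h
  rw [Complex.sub_re, Complex.ofReal_re] at a1
  rw [Complex.sub_im, Complex.ofReal_im, sub_zero] at a2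
  exact ⟨by linarith [a1.1], by linarith [a1.2], a2.trans_lt h3⟩

/-- membership in the strip after a small real shift -/
theorem shift_St {r : ℝ} {x : ℂ} (hx : x ∈ Sd r) {t : ℝ} (ht : |t| ≤ r) : x + t ∈ St := by
  have h1 := hx.1
  have h2 := hx.2.1
  have h3 := abs_le.1 ht
  refine ⟨?_, ?_⟩
  · rw [Complex.add_re, Complex.ofReal_re]; linarith [h3.1]
  · rw [Complex.add_re, Complex.ofReal_re]; linarith [h3.2]

/-- the three arguments of a bracket -/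
theorem args_Sd {r c : ℝ} (hr : 0 < r) (h1 : 8 * r ≤ c)
    (h2 : 8 * r ≤ 1 / 2 - c) {ν ξ : ℂ} (hν : ‖ν - 1 / 2‖ ≤ r) (hξ : ‖ξ - c‖ ≤ r) :
    ν ∈ Sd r ∧ 1 - ν + ξ ∈ Sd r ∧ 1 - ξ ∈ Sd r := by
  have a1 : ‖ν - ((1 / 2 : ℝ) : ℂ)‖ ≤ r := by push_cast; exact hν
  have a2 : ‖1 - ν + ξ - ((1 / 2 + c : ℝ) : ℂ)‖ ≤ 2 * r := by
    have e : 1 - ν + ξ - ((1 / 2 + c : ℝ) : ℂ) = (ξ - c) - (ν - 1 / 2) := by push_cast; ring
    rw [e]
    exact (norm_sub_le _ _).trans (by linarith)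
  have a3 : ‖1 - ξ - ((1 - c : ℝ) : ℂ)‖ ≤ r := by
    have e : 1 - ξ - ((1 - c : ℝ) : ℂ) = -(ξ - c) := by push_cast; ring
    rw [e, norm_neg]
    exact hξ
  exact ⟨mem_Sd a1 (by linarith) (by linarith) (by linarith),
    mem_Sd a2 (by linarith) (by linarith) (by linarith),
    mem_Sd a3 (by linarith) (by linarith) (by linarith)⟩

/-- a bracket with shifted entries -/
theorem br_eq (hLC : S_LC) (hGAM : S_GAM) {r : ℝ} (hr : 0 < r) {N : ℕ} (hN : 1 ≤ N) {ν ξ : ℂ}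
    {s s' : ℝ} (h2 : 1 - ν + ξ ∈ Sd r) (h3 : 1 - ξ ∈ Sd r)
    (hs : (|s| + |s'| + 1) / N ≤ r) :
    ((√N : ℝ) : ℂ) * TB N (ν + s' / N) (ξ - s / N) * Complex.exp (-(N * LT ν ξ)) =
      Gt s' N ν * (Gt (-(s + s')) N (1 - ν + ξ) * Gt (s - 1 / 2) N (1 - ξ)) := by
  obtain ⟨-, -, -, g4⟩ := hGAM hLC
  have hNr : (0 : ℝ) < N := by exact_mod_cast hN
  have hNc : (N : ℂ) ≠ 0 := by exact_mod_cast hNr.ne'
  have hs1 : |s + s'| / N ≤ r := by
    refine (div_le_div_of_nonneg_right ?_ hNr.le).trans hs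
    have := abs_add_le s s'
    linarith
  have hs2 : |s - 1 / 2| / N ≤ r := by
    refine (div_le_div_of_nonneg_right ?_ hNr.le).trans hs
    refine (abs_sub _ _).trans ?_
    have : |(1 / 2 : ℝ)| = 1 / 2 := abs_of_pos (by norm_num)
    have := abs_nonneg s'
    linarith
  -- the two arguments in the denominator
  have m1 : 1 - ν + ξ + ((-(s + s') / N : ℝ) : ℂ) ∈ St := shift_St h2 (by
    rw [abs_div, abs_neg, abs_of_pos hNr]; exact hs1)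
  have m2 : 1 - ξ + (((s - 1 / 2) / N : ℝ) : ℂ) ∈ St := shift_St h3 (by
    rw [abs_div, abs_of_pos hNr]; exact hs2)
  have k1 := g4 N _ m1
  have k2 := g4 N _ m2
  have e1 : (1 : ℂ) - (1 - ν + ξ + ((-(s + s') / N : ℝ) : ℂ)) = ν + s' / N - (ξ - s / N) := by
    push_cast; ring
  have e2 : (1 : ℂ) - (1 - ξ + (((s - 1 / 2) / N : ℝ) : ℂ)) = ξ - s / N + 1 / (2 * N) := by
    push_cast
    field_simp
    ring
  rw [e1] at k1
  rw [e2] at k2
  have i1 : (Gm N (ν + s' / N - (ξ - s / N)))⁻¹ = Gm N (1 - ν + ξ + ((-(s + s') / N : ℝ) : ℂ)) :=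
    inv_eq_of_mul_eq_one_left k1
  have i2 : (Gm N (ξ - s / N + 1 / (2 * N)))⁻¹ = Gm N (1 - ξ + (((s - 1 / 2) / N : ℝ) : ℂ)) :=
    inv_eq_of_mul_eq_one_left k2
  -- the exponents
  have hl2 := hLC.2.1
  have l1 : LC (1 - ν + ξ) = -LC (ν - ξ) := by
    have hm : ν - ξ ∈ St := by
      have := h2.1
      have h' := h2.2.1
      rw [Complex.add_re, Complex.sub_re, Complex.one_re] at this h'
      exact ⟨by rw [Complex.sub_re]; linarith, by rw [Complex.sub_re]; linarith⟩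
    rw [← hl2 _ hm]
    congr 1
    ring
  have l2 : LC (1 - ξ) = -LC ξ := by
    have hm : ξ ∈ St := by
      have := h3.1
      have h' := h3.2.1
      rw [Complex.sub_re, Complex.one_re] at this h'
      exact ⟨by linarith, by linarith⟩
    exact hl2 _ hm
  have hsq : ((√N : ℝ) : ℂ) ≠ 0 := by
    have : (0 : ℝ) < √(N : ℝ) := Real.sqrt_pos.2 hNr
    exact_mod_cast this.ne'
  have eT : ((√N : ℝ) : ℂ) * TB N (ν + s' / N) (ξ - s / N) =
      Gm N (ν + s' / N) * ((Gm N (ν + s' / N - (ξ - s / N)))⁻¹ *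
        (Gm N (ξ - s / N + 1 / (2 * N)))⁻¹) := by
    unfold TB
    rw [div_eq_mul_inv, mul_inv, mul_inv]
    rw [show ((√N : ℝ) : ℂ) * (Gm N (ν + s' / N) * (((√N : ℝ) : ℂ)⁻¹ *
        (Gm N (ν + s' / N - (ξ - s / N)))⁻¹ *
        (Gm N (ξ - s / N + 1 / (2 * N)))⁻¹)) = (((√N : ℝ) : ℂ) * ((√N : ℝ) : ℂ)⁻¹) *
        (Gm N (ν + s' / N) * ((Gm N (ν + s' / N - (ξ - s / N)))⁻¹ *
        (Gm N (ξ - s / N + 1 / (2 * N)))⁻¹)) by ring]
    rw [mul_inv_cancel₀ hsq, one_mul]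
  have eE : Complex.exp (-(N * LT ν ξ)) = Complex.exp (-(N * LC ν)) *
      (Complex.exp (-(N * LC (1 - ν + ξ))) * Complex.exp (-(N * LC (1 - ξ)))) := by
    rw [← Complex.exp_add, ← Complex.exp_add, l1, l2]
    congr 1
    unfold Pool.Agent.Q99.HT.LT
    ring
  rw [eT, eE, i1, i2]
  unfold Gt
  have z1 : (((-(s + s') / N : ℝ)) : ℂ) = ((-(s + s') : ℝ) : ℂ) / N := by push_cast; ring
  have z2 : ((((s - 1 / 2) / N : ℝ)) : ℂ) = ((s - 1 / 2 : ℝ) : ℂ) / N := by push_cast; ring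
  rw [z1, z2]
  ring

theorem task_BX : S_BX := by
  intro x hx hx2 ρ hρ hρ1 hρ2 s s'
  have hLC : S_LC := Pool.Agent.Q208.KN.task_LC
  have hGAM : S_GAM := Pool.Agent.Q280.KN.task_GAM
  have hGX : S_GX := Pool.Agent.Q162.HX.task_GX
  obtain ⟨u1, u2, u3, u4, u5⟩ := Pool.Agent.Q202.HX2.task_UA
  set U : Set (ℂ × ℂ) := Metric.ball (1 / 2) ρ ×ˢ Metric.ball (x : ℂ) ρ with hU
  have hmem : ∀ p ∈ U, p.1 ∈ Sd ρ ∧ 1 - p.1 + p.2 ∈ Sd ρ ∧ 1 - p.2 ∈ Sd ρ := by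
    rintro ⟨ν, ξ⟩ ⟨hν, hξ⟩
    have hν' : ‖ν - 1 / 2‖ < ρ := mem_ball_iff_norm.1 hν
    have hξ' : ‖ξ - x‖ < ρ := mem_ball_iff_norm.1 hξ
    exact args_Sd hρ hρ1 hρ2 hν'.le hξ'.le
  have hG : ∀ (s : ℝ) (φ : ℂ × ℂ → ℂ), AnalyticOnNhd ℂ φ U → Set.MapsTo φ U (Sd ρ) →
      UA (fun N p => Gt s N (φ p)) U := fun s φ h1 h2 =>
    u2 _ _ (fun N x => Gm N (x + s / N) * Complex.exp (-(N * LC x))) φ U (Sd ρ)
      (hGX hLC hGAM ρ hρ s) h1 h2
  have hprod : UA (fun N p => Gt s' N p.1 *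
      (Gt (-(s + s')) N (1 - p.1 + p.2) * Gt (s - 1 / 2) N (1 - p.2))) U := by
    refine u1 _ _ _ _ (hG s' (fun p => p.1) analyticOnNhd_fst fun p hp => (hmem p hp).1)
      (u1 _ _ _ _ (hG _ (fun p => 1 - p.1 + p.2) ?_ fun p hp => (hmem p hp).2.1)
      (hG _ (fun p => 1 - p.2) ?_ fun p hp => (hmem p hp).2.2))
    · exact (analyticOnNhd_const.sub analyticOnNhd_fst).add analyticOnNhd_snd
    · exact analyticOnNhd_const.sub analyticOnNhd_snd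
  refine u4 _ _ _ U hprod fun k => ⟨0, ?_⟩
  have hlim : ∀ᶠ N : ℕ in atTop, (|s| + |s'| + 1) / N ≤ ρ := by
    have : Tendsto (fun N : ℕ => (|s| + |s'| + 1) / (N : ℝ)) atTop (𝓝 0) :=
      tendsto_const_div_atTop_nhds_zero_nat _
    filter_upwards [this.eventually_lt_const hρ] with N hN using hN.le
  filter_upwards [hlim, eventually_ge_atTop 1] with N hN hN1 p hp
  obtain ⟨m1, m2, m3⟩ := hmem p hp
  rw [br_eq hLC hGAM hρ hN1 m2 m3 hN, sub_self, norm_zero, zero_div]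

end Pool.Agent.Q79.XF
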